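import Pool.Agent.Helper46.FG.Final

open Pool.Agent.Helper46.FG

/-- For every `s ≥ 3` there is a subset `A` of the free abelian group `Γ` of countable rank such
that, for the class of all `Γ`-labellings of complete graphs, `(Γ, A)` has property `EP_(s+1)`
but not property `EP_s`. -/
theorem Pool.Agent.Results.MP_45fa85_co.CompleteGraphs.result :
    ∀ s : ℕ, 3 ≤ s → ∃ A : Set (ℕ →₀ ℤ),
      EP (fun _ G => G = ⊤) (ℕ →₀ ℤ) A (s + 1) ∧ ¬ EP (fun _ G => G = ⊤) (ℕ →₀ ℤ) A s :=
  goal
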