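import Pool.Agent.Helper72.EP.Final

/-!
# The property EP_5 does not imply the half-integral Erdős–Pósa property EP_3
-/

namespace Pool.Agent.Results.MP_45fa85_co.EPFiveNotThree

open ErdPos

/-- For a suitable set `A` in the free abelian group of countable rank, `EP_5` holds and
`EP_3` fails. -/
theorem result : ∃ A : Set (ℕ →₀ ℤ), EP (ℕ →₀ ℤ) A 5 ∧ ¬ EP (ℕ →₀ ℤ) A 3 :=
  final

end Pool.Agent.Results.MP_45fa85_co.EPFiveNotThree
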